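import Mathlib

/-!
# Class groups of imaginary quadratic fields: the algebraic part

`k`-th powers of the classes of ideals of small prime norm are different.
-/

set_option autoImplicit false

namespace Pool.Agent.Work.MP_e0c7e8_nt

open NumberField Ideal

open scoped nonZeroDivisors

variable {K : Type} [Field K] [NumberField K]

theorem matCH (M : Matrix (Fin 2) (Fin 2) ℤ) :
    M * M - M.trace • M + M.det • (1 : Matrix (Fin 2) (Fin 2) ℤ) = 0 := by
  ext i j
  rw [Matrix.add_apply, Matrix.sub_apply, Matrix.smul_apply, Matrix.smul_apply, smul_eq_mul,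
    smul_eq_mul, Matrix.trace_fin_two, Matrix.det_fin_two, Matrix.mul_apply, Fin.sum_univ_two]
  fin_cases i <;> fin_cases j <;> simp <;> ring

/-- trace of the square in rank two -/
theorem discr_pair (h2 : Module.finrank ℚ K = 2) (α : 𝓞 K) :
    Algebra.discr ℤ ![(1 : 𝓞 K), α] =
      Algebra.trace ℤ (𝓞 K) α ^ 2 - 4 * Algebra.norm ℤ α ∧
    α * α - Algebra.trace ℤ (𝓞 K) α • α + Algebra.norm ℤ α • (1 : 𝓞 K) = 0 := by
  have hr : Module.finrank ℤ (𝓞 K) = 2 := by rw [RingOfIntegers.rank, h2]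
  let b : Module.Basis (Fin 2) ℤ (𝓞 K) := Module.finBasisOfFinrankEq ℤ (𝓞 K) hr
  have ht : ∀ x : 𝓞 K, Algebra.trace ℤ (𝓞 K) x = (Algebra.leftMulMatrix b x).trace :=
    fun x => Algebra.trace_eq_matrix_trace b x
  have hn : ∀ x : 𝓞 K, Algebra.norm ℤ x = (Algebra.leftMulMatrix b x).det :=
    fun x => Algebra.norm_eq_matrix_det b x
  have h1 : Algebra.trace ℤ (𝓞 K) 1 = 2 := by
    rw [ht, map_one, Matrix.trace_one]
    simp
  have hsq : Algebra.trace ℤ (𝓞 K) (α * α) =
      Algebra.trace ℤ (𝓞 K) α ^ 2 - 2 * Algebra.norm ℤ α := by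
    rw [ht, ht, hn, map_mul, Matrix.trace_fin_two, Matrix.trace_fin_two, Matrix.det_fin_two]
    simp only [Matrix.mul_apply, Fin.sum_univ_two]
    ring
  constructor
  · rw [Algebra.discr_def, Matrix.det_fin_two]
    simp only [Algebra.traceMatrix_apply, Algebra.traceForm_apply, Matrix.cons_val_zero,
      Matrix.cons_val_one, one_mul, mul_one, h1, hsq]
    ring
  · apply Algebra.leftMulMatrix_injective b
    rw [map_add, map_sub, map_mul, map_zsmul, map_zsmul, map_one, map_zero, ht, hn]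
    exact matCH _

/-- An integer of an imaginary quadratic field which is not a rational integer has norm at least
`|d| / 4`. -/
theorem norm_lower (h2 : Module.finrank ℚ K = 2) (hd : discr K < 0) (α : 𝓞 K)
    (hα : ∀ m : ℤ, α ≠ (m : 𝓞 K)) : |discr K| ≤ 4 * |Algebra.norm ℤ α| := by
  have hr : Module.finrank ℤ (𝓞 K) = 2 := by rw [RingOfIntegers.rank, h2]
  let b : Module.Basis (Fin 2) ℤ (𝓞 K) := Module.finBasisOfFinrankEq ℤ (𝓞 K) hr
  obtain ⟨hD, hCH⟩ := discr_pair h2 α
  have hv : Algebra.discr ℤ ![(1 : 𝓞 K), α] = (b.toMatrix ![(1 : 𝓞 K), α]).det ^ 2 * discr K := by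
    rw [← discr_eq_discr K b, ← Algebra.discr_of_matrix_vecMul]
    congr 1
    funext j
    rw [Matrix.vecMul, dotProduct]
    rw [← b.sum_toMatrix_smul_self ![(1 : 𝓞 K), α] j]
    refine Finset.sum_congr rfl fun i _ => ?_
    rw [Matrix.map_apply, Algebra.smul_def, mul_comm]
  set t := Algebra.trace ℤ (𝓞 K) α with ht
  set n := Algebra.norm ℤ α with hn
  set P := (b.toMatrix ![(1 : 𝓞 K), α]).det with hP
  have hP0 : P ≠ 0 := by
    intro h0
    rw [h0] at hv
    have h4 : t ^ 2 = 4 * n := by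
      rw [hv] at hD
      linarith
    -- `(2 α - t)^2 = 0`
    have hsq : (2 * α - (t : 𝓞 K)) ^ 2 = 0 := by
      have h5 : ((t : 𝓞 K)) ^ 2 = 4 * (n : 𝓞 K) := by exact_mod_cast congrArg (Int.cast) h4
      rw [zsmul_eq_mul, zsmul_eq_mul, mul_one] at hCH
      linear_combination 4 * hCH + h5
    have h6 : 2 * α = (t : 𝓞 K) := by
      have := pow_eq_zero_iff (two_ne_zero) |>.mp hsq
      linear_combination this
    have h7 : Even t := by
      have : Even (t ^ 2) := ⟨2 * n, by rw [h4]; ring⟩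
      exact (Int.even_pow' two_ne_zero).mp this
    obtain ⟨s, hs⟩ := h7
    apply hα s
    have h8 : (2 : 𝓞 K) * α = 2 * (s : 𝓞 K) := by
      rw [h6, hs]
      push_cast
      ring
    exact mul_left_cancel₀ two_ne_zero h8
  have hP1 : 1 ≤ P ^ 2 := by
    have : 0 < P ^ 2 := by positivity
    linarith
  have h9 : t ^ 2 - 4 * n ≤ discr K := by
    rw [← hD, hv]
    nlinarith
  have h10 : n ≤ |n| := le_abs_self n
  rw [abs_of_neg hd]
  nlinarith [sq_nonneg t]

end Pool.Agent.Work.MP_e0c7e8_nt
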