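import Pool.Agent.Work.MP_e0c7e8_nt.Alg

/-!
# Class groups of imaginary quadratic fields: classes of ideals of small prime norm
-/

set_option autoImplicit false

namespace Pool.Agent.Work.MP_e0c7e8_nt

open NumberField Ideal

open scoped nonZeroDivisors

variable {K : Type} [Field K] [NumberField K]

theorem exists_conj (h2 : Module.finrank ℚ K = 2) (p : ℕ) (hp : p.Prime) (P : Ideal (𝓞 K))
    (hP : absNorm P = p) : ∃ J : Ideal (𝓞 K), P * J = span {(p : 𝓞 K)} ∧ absNorm J = p := by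
  have hr : Module.finrank ℤ (𝓞 K) = 2 := by rw [RingOfIntegers.rank, h2]
  have hle : span {(p : 𝓞 K)} ≤ P := by
    rw [span_singleton_le_iff_mem, ← hP]
    exact absNorm_mem P
  obtain ⟨J, hJ⟩ := Ideal.dvd_iff_le.mpr hle
  refine ⟨J, hJ.symm, ?_⟩
  have h1 : absNorm (span {(p : 𝓞 K)}) = p ^ 2 := by rw [absNorm_span_natCast, hr]
  rw [hJ, map_mul, hP, pow_two] at h1
  exact Nat.eq_of_mul_eq_mul_left hp.pos h1

theorem mem_nzd_of_norm (p : ℕ) (hp : 0 < p) (P : Ideal (𝓞 K)) (hP : absNorm P = p) :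
    P ∈ (Ideal (𝓞 K))⁰ := by
  rw [mem_nonZeroDivisors_iff_ne_zero]
  intro h
  rw [h, Ideal.zero_eq_bot, absNorm_bot] at hP
  omega

/-- A principal ideal whose norm is small is generated by a rational integer; its norm is a
square. -/
theorem sq_of_principal (h2 : Module.finrank ℚ K = 2) (hd : discr K < 0) (I : Ideal (𝓞 K))
    (hI : I.IsPrincipal) (hn : 4 * (absNorm I : ℤ) < |discr K|) :
    ∃ m : ℕ, absNorm I = m ^ 2 := by
  have hr : Module.finrank ℤ (𝓞 K) = 2 := by rw [RingOfIntegers.rank, h2]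
  obtain ⟨α, hα⟩ := hI.principal
  have hα' : I = span {α} := hα
  have hN : (absNorm I : ℤ) = |Algebra.norm ℤ α| := by
    rw [hα', absNorm_span_singleton]
    exact Int.natCast_natAbs _
  by_cases hm : ∃ m : ℤ, α = (m : 𝓞 K)
  · obtain ⟨m, rfl⟩ := hm
    refine ⟨m.natAbs, ?_⟩
    have h3 : Algebra.norm ℤ ((m : ℤ) : 𝓞 K) = m ^ 2 := by
      have := Algebra.norm_algebraMap (S := 𝓞 K) m
      rw [hr] at this
      simpa using this
    rw [h3] at hN
    have : (absNorm I : ℤ) = ((m.natAbs ^ 2 : ℕ) : ℤ) := by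
      rw [hN, abs_of_nonneg (sq_nonneg m)]
      push_cast
      rw [sq_abs]
    exact_mod_cast this
  · push Not at hm
    have := norm_lower h2 hd α hm
    rw [← hN] at this
    linarith

theorem odd_pow_not_sq (p : ℕ) (hp : p.Prime) (q : ℕ) (hq : q = 1 ∨ (q.Prime ∧ q ≠ p)) (k : ℕ)
    (hk : Odd k) (m : ℕ) : p ^ k * q ^ k ≠ m ^ 2 := by
  intro h
  have hq0 : q ≠ 0 := by
    rcases hq with h | h
    · omega
    · exact h.1.ne_zero
  have hv : (p ^ k * q ^ k).factorization p = k := by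
    rw [Nat.factorization_mul (pow_ne_zero _ hp.ne_zero) (pow_ne_zero _ hq0),
      Nat.factorization_pow, Nat.factorization_pow]
    have h1 : q.factorization p = 0 := by
      rcases hq with h | h
      · rw [h]; simp
      · apply Nat.factorization_eq_zero_of_not_dvd
        intro hd
        exact h.2 ((Nat.prime_dvd_prime_iff_eq hp h.1).mp hd).symm
    simp [hp.factorization_self, h1]
  rw [h, Nat.factorization_pow] at hv
  have : 2 * m.factorization p = k := by simpa using hv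
  rw [← this] at hk
  exact (Nat.not_odd_iff_even.mpr (even_two_mul _)) hk

theorem class_ne (h2 : Module.finrank ℚ K = 2) (hd : discr K < 0) (k : ℕ) (hk : Odd k)
    (p q : ℕ) (hp : p.Prime) (hq : q.Prime) (hpq : p ≠ q) (P Q : (Ideal (𝓞 K))⁰)
    (hP : absNorm (P : Ideal (𝓞 K)) = p) (hQ : absNorm (Q : Ideal (𝓞 K)) = q)
    (hs : 4 * ((p * q : ℕ) : ℤ) ^ k < |discr K|) :
    ClassGroup.mk0 P ^ k ≠ ClassGroup.mk0 Q ^ k := by
  intro h
  obtain ⟨J, hJ, hJn⟩ := exists_conj h2 q hq (Q : Ideal (𝓞 K)) hQ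
  have hJ0 := mem_nzd_of_norm q hq.pos J hJn
  have h1 : ClassGroup.mk0 (P ^ k * (⟨J, hJ0⟩ : (Ideal (𝓞 K))⁰) ^ k) = 1 := by
    rw [map_mul, map_pow, map_pow, h, ← mul_pow, ← map_mul]
    have : ClassGroup.mk0 (Q * (⟨J, hJ0⟩ : (Ideal (𝓞 K))⁰)) = 1 := by
      rw [ClassGroup.mk0_eq_one_iff]
      show (((Q : Ideal (𝓞 K)) * J : Ideal (𝓞 K))).IsPrincipal
      rw [hJ]
      exact ⟨⟨(q : 𝓞 K), rfl⟩⟩
    rw [this, one_pow]
  rw [ClassGroup.mk0_eq_one_iff] at h1
  have hn : absNorm (((P ^ k * (⟨J, hJ0⟩ : (Ideal (𝓞 K))⁰) ^ k : (Ideal (𝓞 K))⁰) :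
      Ideal (𝓞 K))) = p ^ k * q ^ k := by
    simp [hP, hJn]
  obtain ⟨m, hm⟩ := sq_of_principal h2 hd _ h1 (by
    rw [hn]
    push_cast at hs ⊢
    rw [← mul_pow]
    exact hs)
  rw [hn] at hm
  exact odd_pow_not_sq p hp q (Or.inr ⟨hq, hpq.symm⟩) k hk m hm

theorem class_ne_one (h2 : Module.finrank ℚ K = 2) (hd : discr K < 0) (k : ℕ) (hk : Odd k)
    (p : ℕ) (hp : p.Prime) (P : (Ideal (𝓞 K))⁰)
    (hP : absNorm (P : Ideal (𝓞 K)) = p) (hs : 4 * (p : ℤ) ^ k < |discr K|) :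
    ClassGroup.mk0 P ^ k ≠ 1 := by
  intro h
  rw [← map_pow, ClassGroup.mk0_eq_one_iff] at h
  have hn : absNorm ((P ^ k : (Ideal (𝓞 K))⁰) : Ideal (𝓞 K)) = p ^ k := by
    simp [hP]
  obtain ⟨m, hm⟩ := sq_of_principal h2 hd _ h (by
    rw [hn]
    push_cast
    exact hs)
  rw [hn] at hm
  exact odd_pow_not_sq p hp 1 (Or.inl rfl) k hk m (by rw [one_pow, mul_one]; exact hm)

/-- Many different `k`-th powers give a bound for the `k`-torsion. -/
theorem torsion_mul_le (h2 : Module.finrank ℚ K = 2) (hd : discr K < 0) (k : ℕ) (hk : Odd k)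
    (T : Finset ℕ) (hT : ∀ p ∈ T, p.Prime ∧ ∃ P : Ideal (𝓞 K), absNorm P = p)
    (hs : ∀ p ∈ T, ∀ q ∈ T, 4 * ((p * q : ℕ) : ℤ) ^ k < |discr K|) :
    Nat.card {x : ClassGroup (𝓞 K) // x ^ k = 1} * (T.card + 1) ≤ Nat.card (ClassGroup (𝓞 K)) := by
  classical
  have hex : ∀ p : T, ∃ P : (Ideal (𝓞 K))⁰, absNorm (P : Ideal (𝓞 K)) = p := by
    rintro ⟨p, hp⟩
    obtain ⟨hp1, P, hP⟩ := hT p hp
    exact ⟨⟨P, mem_nzd_of_norm p hp1.pos P hP⟩, hP⟩
  choose F hF using hex
  let f : ClassGroup (𝓞 K) →* ClassGroup (𝓞 K) := powMonoidHom k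
  let g : Option T → f.range := fun o => match o with
    | none => 1
    | some p => ⟨ClassGroup.mk0 (F p) ^ k, ⟨ClassGroup.mk0 (F p), rfl⟩⟩
  have h1s : ∀ p ∈ T, 4 * (p : ℤ) ^ k < |discr K| := by
    intro p hp
    have h3 := hs p hp p hp
    have h4 : (p : ℤ) ^ k ≤ ((p * p : ℕ) : ℤ) ^ k := by
      have : 1 ≤ p := (hT p hp).1.one_lt.le
      have h5 : p ^ k ≤ (p * p) ^ k := Nat.pow_le_pow_left (Nat.le_mul_of_pos_left p this) k
      exact_mod_cast h5
    linarith
  have hg : Function.Injective g := by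
    intro o o' h
    match o, o', h with
    | none, none, _ => rfl
    | none, some p, h =>
      exfalso
      have h3 : (1 : ClassGroup (𝓞 K)) = ClassGroup.mk0 (F p) ^ k := congrArg Subtype.val h
      exact class_ne_one h2 hd k hk p (hT p p.2).1 (F p) (hF p) (h1s p p.2) h3.symm
    | some p, none, h =>
      exfalso
      have h3 : ClassGroup.mk0 (F p) ^ k = (1 : ClassGroup (𝓞 K)) := congrArg Subtype.val h
      exact class_ne_one h2 hd k hk p (hT p p.2).1 (F p) (hF p) (h1s p p.2) h3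
    | some p, some q, h =>
      have h3 : ClassGroup.mk0 (F p) ^ k = ClassGroup.mk0 (F q) ^ k := congrArg Subtype.val h
      by_contra hne
      have hpq : (p : ℕ) ≠ q := by
        intro h4
        exact hne (congrArg some (Subtype.ext h4))
      exact class_ne h2 hd k hk p q (hT p p.2).1 (hT q q.2).1 hpq (F p) (F q) (hF p) (hF q)
        (hs p p.2 q q.2) h3
  have hcard : T.card + 1 ≤ Nat.card f.range := by
    have h5 := Nat.card_le_card_of_injective g hg
    rw [Nat.card_eq_fintype_card, Fintype.card_option, Fintype.card_coe] at h5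
    exact h5
  have hker : Nat.card {x : ClassGroup (𝓞 K) // x ^ k = 1} = Nat.card f.ker := by
    apply Nat.card_congr
    exact Equiv.subtypeEquivRight fun x => Iff.rfl
  have h6 : Nat.card f.ker * Nat.card f.range = Nat.card (ClassGroup (𝓞 K)) := by
    rw [← Subgroup.index_ker]
    exact Subgroup.card_mul_index _
  rw [hker, ← h6]
  exact Nat.mul_le_mul_left _ hcard

end Pool.Agent.Work.MP_e0c7e8_nt
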