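import Pool.Agent.Work.MP_e0c7e8_nt.Euler

/-!
# Sums over ideals of bounded norm
-/

set_option autoImplicit false

namespace Pool.Agent.Work.MP_e0c7e8_nt

open NumberField Ideal

variable (K : Type) [Field K] [NumberField K]

theorem fin_norm_le (X : ℕ) : {I : Ideal (𝓞 K) | I ≠ ⊥ ∧ absNorm I ≤ X}.Finite :=
  (Ideal.finite_setOfPred_absNorm_le (S := 𝓞 K) X).subset fun _ h => h.2

/-- nonzero ideals of norm at most `X` -/
noncomputable def Sx (X : ℕ) : Finset (Ideal (𝓞 K)) := (fin_norm_le K X).toFinset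

open Classical in
/-- nonzero prime ideals of norm at most `X` -/
noncomputable def Px (X : ℕ) : Finset (Ideal (𝓞 K)) := (Sx K X).filter fun P => P.IsPrime

variable {K}

theorem mem_Sx {X : ℕ} {I : Ideal (𝓞 K)} : I ∈ Sx K X ↔ I ≠ ⊥ ∧ absNorm I ≤ X := by
  unfold Sx
  rw [Set.Finite.mem_toFinset]
  rfl

theorem mem_Px {X : ℕ} {P : Ideal (𝓞 K)} :
    P ∈ Px K X ↔ P.IsPrime ∧ P ≠ ⊥ ∧ absNorm P ≤ X := by
  classical
  unfold Px
  rw [Finset.mem_filter, mem_Sx]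
  tauto

theorem norm_le_of_dvd {P I : Ideal (𝓞 K)} (hI : I ≠ ⊥) (h : P ∣ I) : absNorm P ≤ absNorm I :=
  Nat.le_of_dvd (norm_pos_of_ne I hI) (absNorm_dvd_absNorm_of_le (Ideal.dvd_iff_le.mp h))

theorem sum_inv_le (X : ℕ) : ∑ I ∈ Sx K X, 1 / (absNorm I : ℝ) ≤
    ∏ P ∈ Px K X, (1 - 1 / (absNorm P : ℝ))⁻¹ := by
  apply euler_bound
  · intro P hP
    exact ⟨(mem_Px.mp hP).1, (mem_Px.mp hP).2.1⟩
  · intro I hI
    rw [mem_Sx] at hI
    refine ⟨hI.1, fun P hP hP0 hd => ?_⟩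
    rw [mem_Px]
    exact ⟨hP, hP0, (norm_le_of_dvd hI.1 hd).trans hI.2⟩

variable (K) in
open Classical in
/-- bound for the Euler factor at `p` -/
noncomputable def Ef (p : ℕ) : ℝ :=
  if ∃ P : Ideal (𝓞 K), absNorm P = p then ((1 - 1 / (p : ℝ))⁻¹) ^ 2 else (1 - 1 / (p : ℝ) ^ 2)⁻¹

theorem inv_mono_factor (a b : ℝ) (hb : 1 < b) (hab : b ≤ a) :
    1 ≤ (1 - 1 / a)⁻¹ ∧ (1 - 1 / a)⁻¹ ≤ (1 - 1 / b)⁻¹ := by
  have h1 : 0 < 1 - 1 / b := by
    rw [sub_pos, div_lt_one (by linarith)]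
    exact hb
  have h2 : 1 / a ≤ 1 / b := one_div_le_one_div_of_le (by linarith) hab
  have h3 : 0 < 1 / a := by
    have : 0 < a := by linarith
    positivity
  constructor
  · rw [← one_div, le_div_iff₀ (by linarith)]
    linarith
  · exact inv_anti₀ h1 (by linarith)

theorem fibre_le (h2 : Module.finrank ℚ K = 2) (p : ℕ) (hp : p.Prime)
    (D : Finset (Ideal (𝓞 K))) (hD : ∀ P ∈ D, P.IsPrime ∧ P ≠ ⊥ ∧ (p : 𝓞 K) ∈ P) :
    ∏ P ∈ D, (1 - 1 / (absNorm P : ℝ))⁻¹ ≤ Ef K p := by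
  obtain ⟨hc2, hc1⟩ := fibre_card h2 p hp D hD
  have hp1 : (1 : ℝ) < p := by exact_mod_cast hp.one_lt
  unfold Ef
  split_ifs with hex
  · have h1 : ∏ P ∈ D, (1 - 1 / (absNorm P : ℝ))⁻¹ ≤ ∏ _P ∈ D, (1 - 1 / (p : ℝ))⁻¹ := by
      apply Finset.prod_le_prod
      · intro P hP
        have hN : (p : ℝ) ≤ absNorm P := by
          rcases norm_of_mem h2 P (hD P hP).1 p hp (hD P hP).2.2 with h | h
          · rw [h]
          · rw [h]
            exact_mod_cast Nat.le_self_pow two_ne_zero p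
        have := (inv_mono_factor _ _ hp1 hN).1
        linarith
      · intro P hP
        have hN : (p : ℝ) ≤ absNorm P := by
          rcases norm_of_mem h2 P (hD P hP).1 p hp (hD P hP).2.2 with h | h
          · rw [h]
          · rw [h]
            exact_mod_cast Nat.le_self_pow two_ne_zero p
        exact (inv_mono_factor _ _ hp1 hN).2
    refine h1.trans ?_
    rw [Finset.prod_const]
    exact pow_le_pow_right₀ (inv_mono_factor _ _ hp1 le_rfl).1 hc2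
  · have hN : ∀ P ∈ D, absNorm P = p ^ 2 := by
      intro P hP
      rcases norm_of_mem h2 P (hD P hP).1 p hp (hD P hP).2.2 with h | h
      · exact absurd ⟨P, h⟩ hex
      · exact h
    have hcard : D.card ≤ 1 := hc1 fun P hP h => hex ⟨P, h⟩
    have h1 : ∏ P ∈ D, (1 - 1 / (absNorm P : ℝ))⁻¹ = ∏ _P ∈ D, (1 - 1 / (p : ℝ) ^ 2)⁻¹ := by
      refine Finset.prod_congr rfl fun P hP => ?_
      rw [hN P hP]
      push_cast
      rfl
    rw [h1, Finset.prod_const]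
    have hp2 : (1 : ℝ) < (p : ℝ) ^ 2 := by nlinarith
    calc ((1 - 1 / (p : ℝ) ^ 2)⁻¹) ^ D.card ≤ ((1 - 1 / (p : ℝ) ^ 2)⁻¹) ^ 1 :=
          pow_le_pow_right₀ (inv_mono_factor _ _ hp2 le_rfl).1 hcard
      _ = _ := pow_one _

theorem Ef_pos (p : ℕ) (hp : p.Prime) : 1 ≤ Ef K p := by
  have hp1 : (1 : ℝ) < p := by exact_mod_cast hp.one_lt
  have hp2 : (1 : ℝ) < (p : ℝ) ^ 2 := by nlinarith
  unfold Ef
  split_ifs
  · exact one_le_pow₀ (inv_mono_factor _ _ hp1 le_rfl).1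
  · exact (inv_mono_factor _ _ hp2 le_rfl).1

/-- primes up to `X` -/
def prs (X : ℕ) : Finset ℕ := (Finset.Icc 1 X).filter Nat.Prime

theorem prod_Px_le (h2 : Module.finrank ℚ K = 2) (X : ℕ) :
    ∏ P ∈ Px K X, (1 - 1 / (absNorm P : ℝ))⁻¹ ≤ ∏ p ∈ prs X, Ef K p := by
  classical
  have hmaps : ∀ P ∈ Px K X, (absNorm P).minFac ∈ prs X := by
    intro P hP
    rw [mem_Px] at hP
    obtain ⟨h1, h3, h4⟩ := hP
    have hb := below_eq h2 P h1 h3
    unfold prs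
    rw [Finset.mem_filter, Finset.mem_Icc]
    refine ⟨⟨hb.1.one_lt.le, ?_⟩, hb.1⟩
    exact (Nat.minFac_le (norm_pos_of_ne P h3)).trans h4
  rw [← Finset.prod_fiberwise_of_maps_to hmaps]
  apply Finset.prod_le_prod
  · intro p _
    apply Finset.prod_nonneg
    intro P hP
    rw [Finset.mem_filter, mem_Px] at hP
    have hN : (2 : ℝ) ≤ absNorm P := by exact_mod_cast two_le_norm P hP.1.1 hP.1.2.1
    have := (inv_mono_factor _ 2 (by norm_num) hN).1
    linarith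
  · intro p hp
    unfold prs at hp
    rw [Finset.mem_filter] at hp
    apply fibre_le h2 p hp.2
    intro P hP
    rw [Finset.mem_filter, mem_Px] at hP
    have hb := below_eq h2 P hP.1.1 hP.1.2.1
    rw [hP.2] at hb
    exact ⟨hP.1.1, hP.1.2.1, hb.2.1⟩

theorem card_Px_le (h2 : Module.finrank ℚ K = 2) (X : ℕ) : (Px K X).card ≤ 2 * (prs X).card := by
  classical
  apply Finset.card_le_mul_card_image_of_maps_to (f := fun P : Ideal (𝓞 K) => (absNorm P).minFac)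
  · intro P hP
    rw [mem_Px] at hP
    obtain ⟨h1, h3, h4⟩ := hP
    have hb := below_eq h2 P h1 h3
    unfold prs
    rw [Finset.mem_filter, Finset.mem_Icc]
    refine ⟨⟨hb.1.one_lt.le, ?_⟩, hb.1⟩
    exact (Nat.minFac_le (norm_pos_of_ne P h3)).trans h4
  · intro p hp
    unfold prs at hp
    rw [Finset.mem_filter] at hp
    refine (fibre_card h2 p hp.2 _ ?_).1
    intro P hP
    rw [Finset.mem_filter, mem_Px] at hP
    have hb := below_eq h2 P hP.1.1 hP.1.2.1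
    rw [hP.2] at hb
    exact ⟨hP.1.1, hP.1.2.1, hb.2.1⟩

end Pool.Agent.Work.MP_e0c7e8_nt
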