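import Pool.Agent.Work.MP_e0c7e8_nt.Idl

/-!
# Sums over ideals: Euler product
-/

set_option autoImplicit false

namespace Pool.Agent.Work.MP_e0c7e8_nt

open NumberField Ideal

variable {K : Type} [Field K] [NumberField K]

theorem norm_pos_of_ne (I : Ideal (𝓞 K)) (h : I ≠ ⊥) : 0 < absNorm I := by
  rw [Nat.pos_iff_ne_zero, Ne, absNorm_eq_zero_iff]
  exact h

theorem two_le_norm (P : Ideal (𝓞 K)) (hP : P.IsPrime) (h : P ≠ ⊥) : 2 ≤ absNorm P := by
  have h1 := norm_pos_of_ne P h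
  have h2 : absNorm P ≠ 1 := by
    rw [Ne, absNorm_eq_one_iff]
    exact hP.ne_top
  omega

theorem split_pow (P : Ideal (𝓞 K)) (hP : P.IsPrime) (I : Ideal (𝓞 K)) (hI : I ≠ ⊥) :
    ∃ (v : ℕ) (J : Ideal (𝓞 K)), I = P ^ v * J ∧ ¬ P ∣ J := by
  have h1 : FiniteMultiplicity P I := by
    apply FiniteMultiplicity.of_not_isUnit
    · intro h
      rw [Ideal.isUnit_iff] at h
      exact hP.ne_top h
    · exact hI
  obtain ⟨c, hc, hd⟩ := h1.exists_eq_pow_mul_and_not_dvd
  exact ⟨_, c, hc, hd⟩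

theorem geom_le (x : ℝ) (h0 : 0 ≤ x) (h1 : x < 1) (n : ℕ) :
    ∑ i ∈ Finset.range n, x ^ i ≤ (1 - x)⁻¹ := by
  have h2 := mul_neg_geom_sum x n
  have h3 : 0 < 1 - x := by linarith
  have h4 : 0 ≤ x ^ n := pow_nonneg h0 n
  rw [← one_div, le_div_iff₀ h3, mul_comm, h2]
  linarith

theorem euler_bound (F : Finset (Ideal (𝓞 K))) : (∀ P ∈ F, P.IsPrime ∧ P ≠ ⊥) →
    ∀ S : Finset (Ideal (𝓞 K)), (∀ I ∈ S, I ≠ ⊥ ∧
      ∀ P : Ideal (𝓞 K), P.IsPrime → P ≠ ⊥ → P ∣ I → P ∈ F) →
    ∑ I ∈ S, 1 / (absNorm I : ℝ) ≤ ∏ P ∈ F, (1 - 1 / (absNorm P : ℝ))⁻¹ := by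
  classical
  induction F using Finset.induction_on with
  | empty =>
    intro _ S hS
    have h1 : S ⊆ {⊤} := by
      intro I hI
      rw [Finset.mem_singleton]
      by_contra hne
      obtain ⟨P, hP, hle⟩ := Ideal.exists_le_maximal I hne
      have hdvd : P ∣ I := Ideal.dvd_iff_le.mpr hle
      have hP0 : P ≠ ⊥ := by
        rintro rfl
        exact (hS I hI).1 (le_bot_iff.mp hle)
      exact absurd ((hS I hI).2 P hP.isPrime hP0 hdvd) (Finset.notMem_empty P)
    calc ∑ I ∈ S, 1 / (absNorm I : ℝ) ≤ ∑ I ∈ ({⊤} : Finset (Ideal (𝓞 K))), 1 / (absNorm I : ℝ) :=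
          Finset.sum_le_sum_of_subset_of_nonneg h1 fun _ _ _ => by positivity
      _ = 1 := by simp [absNorm_top]
      _ ≤ _ := by simp
  | insert P F hPF ih =>
    intro hF S hS
    have hP := (hF P (Finset.mem_insert_self P F)).1
    have hP0 := (hF P (Finset.mem_insert_self P F)).2
    have hex : ∀ I : Ideal (𝓞 K), ∃ (v : ℕ) (J : Ideal (𝓞 K)), I ≠ ⊥ → I = P ^ v * J ∧ ¬ P ∣ J := by
      intro I
      by_cases h : I = ⊥
      · exact ⟨0, ⊥, fun h' => absurd h h'⟩
      · obtain ⟨v, J, h1⟩ := split_pow P hP I h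
        exact ⟨v, J, fun _ => h1⟩
    choose v r hvr using hex
    have hvr' : ∀ I ∈ S, I = P ^ v I * r I ∧ ¬ P ∣ r I := fun I hI => hvr I (hS I hI).1
    set x : ℝ := 1 / (absNorm P : ℝ) with hx
    have hN2 : (2 : ℝ) ≤ absNorm P := by exact_mod_cast two_le_norm P hP hP0
    have hx0 : 0 ≤ x := by positivity
    have hx1 : x < 1 := by
      rw [hx, div_lt_one (by linarith)]
      linarith
    set g : ℕ × Ideal (𝓞 K) → ℝ := fun a => x ^ a.1 * (1 / (absNorm a.2 : ℝ)) with hg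
    have h1 : ∑ I ∈ S, 1 / (absNorm I : ℝ) = ∑ I ∈ S, g (v I, r I) := by
      refine Finset.sum_congr rfl fun I hI => ?_
      rw [hg, hx]
      dsimp only
      conv_lhs => rw [(hvr' I hI).1]
      rw [map_mul, map_pow, Nat.cast_mul, Nat.cast_pow, div_pow, one_pow, one_div_mul_one_div]
    have hinj : Set.InjOn (fun I => (v I, r I)) (S : Set (Ideal (𝓞 K))) := by
      intro I hI J hJ h
      have h2 : v I = v J := congrArg Prod.fst h
      have h3 : r I = r J := congrArg Prod.snd h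
      rw [(hvr' I hI).1, (hvr' J hJ).1, h2, h3]
    obtain ⟨L, hL⟩ : ∃ L : ℕ, ∀ I ∈ S, v I < L := by
      refine ⟨S.sup v + 1, fun I hI => ?_⟩
      have := Finset.le_sup (f := v) hI
      omega
    have h2 : ∑ I ∈ S, g (v I, r I) ≤ ∑ a ∈ Finset.range L ×ˢ S.image r, g a := by
      rw [← Finset.sum_image hinj]
      apply Finset.sum_le_sum_of_subset_of_nonneg
      · intro a ha
        rw [Finset.mem_image] at ha
        obtain ⟨I, hI, rfl⟩ := ha
        rw [Finset.mem_product]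
        exact ⟨Finset.mem_range.mpr (hL I hI), Finset.mem_image_of_mem r hI⟩
      · intro a _ _
        rw [hg]
        positivity
    have h3 : ∑ a ∈ Finset.range L ×ˢ S.image r, g a =
        (∑ i ∈ Finset.range L, x ^ i) * ∑ J ∈ S.image r, 1 / (absNorm J : ℝ) := by
      rw [Finset.sum_product, Finset.sum_mul]
      refine Finset.sum_congr rfl fun i _ => ?_
      rw [Finset.mul_sum]
    have h4 : ∑ J ∈ S.image r, 1 / (absNorm J : ℝ) ≤ ∏ P ∈ F, (1 - 1 / (absNorm P : ℝ))⁻¹ := by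
      apply ih (fun Q hQ => hF Q (Finset.mem_insert_of_mem hQ))
      intro J hJ
      rw [Finset.mem_image] at hJ
      obtain ⟨I, hI, rfl⟩ := hJ
      have hI0 := (hS I hI).1
      refine ⟨?_, ?_⟩
      · intro h0
        apply hI0
        rw [(hvr' I hI).1, h0]
        exact Ideal.mul_bot _
      · intro Q hQ hQ0 hd
        have h5 : Q ∣ I := by
          rw [(hvr' I hI).1]
          exact Dvd.dvd.mul_left hd _
        have h6 := (hS I hI).2 Q hQ hQ0 h5
        rw [Finset.mem_insert] at h6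
        rcases h6 with rfl | h6
        · exact absurd hd (hvr' I hI).2
        · exact h6
    rw [h1, Finset.prod_insert hPF]
    refine h2.trans ?_
    rw [h3]
    apply mul_le_mul (geom_le x hx0 hx1 L) h4
    · exact Finset.sum_nonneg fun _ _ => by positivity
    · rw [inv_nonneg]
      linarith

end Pool.Agent.Work.MP_e0c7e8_nt
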