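import Pool.Agent.Work.MP_e0c7e8_nt.Cls

/-!
# Prime ideals of quadratic fields
-/

set_option autoImplicit false

namespace Pool.Agent.Work.MP_e0c7e8_nt

open NumberField Ideal

variable {K : Type} [Field K] [NumberField K]

/-- norms of prime ideals containing `q` -/
theorem norm_of_mem (h2 : Module.finrank ℚ K = 2) (P : Ideal (𝓞 K)) (hP : P.IsPrime)
    (q : ℕ) (hq : q.Prime) (hm : (q : 𝓞 K) ∈ P) :
    absNorm P = q ∨ absNorm P = q ^ 2 := by
  have hr : Module.finrank ℤ (𝓞 K) = 2 := by rw [RingOfIntegers.rank, h2]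
  have h1 : absNorm P ∣ q ^ 2 := by
    have := absNorm_dvd_absNorm_of_le ((span_singleton_le_iff_mem P).mpr hm)
    rwa [absNorm_span_natCast, hr] at this
  obtain ⟨i, hi, hi'⟩ := (Nat.dvd_prime_pow hq).mp h1
  have h0 : i ≠ 0 := by
    rintro rfl
    rw [pow_zero, absNorm_eq_one_iff] at hi'
    exact hP.ne_top hi'
  have h3 : i = 1 ∨ i = 2 := by omega
  rcases h3 with rfl | rfl
  · left; simpa using hi'
  · right; exact hi'

/-- every prime ideal contains a rational prime -/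
theorem exists_below (P : Ideal (𝓞 K)) (hP : P.IsPrime) (h0 : P ≠ ⊥) :
    ∃ q : ℕ, q.Prime ∧ (q : 𝓞 K) ∈ P := by
  have hN : absNorm P ≠ 0 := by
    rw [Ne, absNorm_eq_zero_iff]
    exact h0
  have hmem := absNorm_mem P
  rw [← Nat.prod_primeFactorsList hN] at hmem
  have key : ∀ l : List ℕ, (∀ q ∈ l, q.Prime) → ((l.prod : ℕ) : 𝓞 K) ∈ P →
      ∃ q : ℕ, q.Prime ∧ (q : 𝓞 K) ∈ P := by
    intro l
    induction l with
    | nil =>
      intro _ h
      exfalso
      rw [List.prod_nil, Nat.cast_one] at h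
      exact hP.ne_top ((eq_top_iff_one P).mpr h)
    | cons a l ih =>
      intro hl h
      rw [List.prod_cons, Nat.cast_mul] at h
      rcases hP.mem_or_mem h with h | h
      · exact ⟨a, hl a (by simp), h⟩
      · exact ih (fun q hq => hl q (by simp [hq])) h
  exact key _ (fun q hq => Nat.prime_of_mem_primeFactorsList hq) hmem

theorem below_eq (h2 : Module.finrank ℚ K = 2) (P : Ideal (𝓞 K)) (hP : P.IsPrime) (h0 : P ≠ ⊥) :
    (absNorm P).minFac.Prime ∧ (((absNorm P).minFac : ℕ) : 𝓞 K) ∈ P ∧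
      (absNorm P = (absNorm P).minFac ∨ absNorm P = (absNorm P).minFac ^ 2) := by
  obtain ⟨q, hq, hm⟩ := exists_below P hP h0
  rcases norm_of_mem h2 P hP q hq hm with h | h
  · have h1 : (absNorm P).minFac = q := by rw [h, hq.minFac_eq]
    rw [h1]
    exact ⟨hq, hm, Or.inl h⟩
  · have h1 : (absNorm P).minFac = q := by
      rw [h]
      exact hq.pow_minFac two_ne_zero
    rw [h1]
    exact ⟨hq, hm, Or.inr h⟩

theorem fibre_prod (h2 : Module.finrank ℚ K = 2) (p : ℕ) (hp : p.Prime)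
    (D : Finset (Ideal (𝓞 K))) (hD : ∀ P ∈ D, P.IsPrime ∧ P ≠ ⊥ ∧ (p : 𝓞 K) ∈ P) :
    ∏ P ∈ D, absNorm P ≤ p ^ 2 := by
  have hr : Module.finrank ℤ (𝓞 K) = 2 := by rw [RingOfIntegers.rank, h2]
  have h1 : ∏ P ∈ D, P ∣ span {(p : 𝓞 K)} := by
    apply Finset.prod_primes_dvd
    · intro P hP
      exact Ideal.prime_of_isPrime (hD P hP).2.1 (hD P hP).1
    · intro P hP
      rw [Ideal.dvd_iff_le, span_singleton_le_iff_mem]
      exact (hD P hP).2.2
  have h3 : absNorm (∏ P ∈ D, P) ∣ p ^ 2 := by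
    have := absNorm_dvd_absNorm_of_le (Ideal.dvd_iff_le.mp h1)
    rwa [absNorm_span_natCast, hr] at this
  rw [map_prod] at h3
  exact Nat.le_of_dvd (pow_pos hp.pos 2) h3

theorem fibre_card (h2 : Module.finrank ℚ K = 2) (p : ℕ) (hp : p.Prime)
    (D : Finset (Ideal (𝓞 K))) (hD : ∀ P ∈ D, P.IsPrime ∧ P ≠ ⊥ ∧ (p : 𝓞 K) ∈ P) :
    D.card ≤ 2 ∧ ((∀ P ∈ D, absNorm P ≠ p) → D.card ≤ 1) := by
  have h1 := fibre_prod h2 p hp D hD
  constructor
  · have h3 : p ^ D.card ≤ ∏ P ∈ D, absNorm P := by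
      rw [← Finset.prod_const]
      apply Finset.prod_le_prod' 
      intro P hP
      rcases norm_of_mem h2 P (hD P hP).1 p hp (hD P hP).2.2 with h | h
      · rw [h]
      · rw [h]
        exact Nat.le_self_pow two_ne_zero p
    have h4 := h3.trans h1
    exact (Nat.pow_le_pow_iff_right hp.one_lt).mp h4
  · intro hne
    have h3 : (p ^ 2) ^ D.card ≤ ∏ P ∈ D, absNorm P := by
      rw [← Finset.prod_const]
      apply Finset.prod_le_prod' 
      intro P hP
      rcases norm_of_mem h2 P (hD P hP).1 p hp (hD P hP).2.2 with h | h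
      · exact absurd h (hne P hP)
      · rw [h]
    have h4 := h3.trans h1
    rw [← pow_mul] at h4
    have := (Nat.pow_le_pow_iff_right hp.one_lt).mp h4
    omega

end Pool.Agent.Work.MP_e0c7e8_nt
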