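import Pool.Agent.Work.MP_e0c7e8_nt.Count

/-!
# The number of ideals of bounded norm: weights `log N(I)`
-/

set_option autoImplicit false

namespace Pool.Agent.Work.MP_e0c7e8_nt

open NumberField Ideal

variable {K : Type} [Field K] [NumberField K]

open Classical in
/-- pairs `(P, j)` with `P ^ j ∣ I` -/
noncomputable def Tf (X L : ℕ) (I : Ideal (𝓞 K)) : Finset (Ideal (𝓞 K) × ℕ) :=
  (Px K X ×ˢ Finset.Icc 1 L).filter fun t => t.1 ^ t.2 ∣ I

theorem log_norm_nonneg (P : Ideal (𝓞 K)) : 0 ≤ Real.log (absNorm P : ℝ) := by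
  rcases Nat.eq_zero_or_pos (absNorm P) with h | h
  · rw [h]; simp
  · exact Real.log_nonneg (by exact_mod_cast h)

theorem log_norm_le (X L : ℕ) (hL : X < 2 ^ L) (I : Ideal (𝓞 K)) :
    I ≠ ⊥ → absNorm I ≤ X →
      Real.log (absNorm I : ℝ) ≤ ∑ t ∈ Tf X L I, Real.log (absNorm t.1 : ℝ) := by
  classical
  induction I using UniqueFactorizationMonoid.induction_on_prime with
  | h₁ => intro h; exact absurd rfl h
  | h₂ x hx =>
    intro _ _
    rw [Ideal.isUnit_iff] at hx
    rw [hx, absNorm_top, Nat.cast_one, Real.log_one]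
    exact Finset.sum_nonneg fun t _ => log_norm_nonneg t.1
  | h₃ J Q hJ hQ ih =>
    intro _ hN
    have hJ0 : J ≠ ⊥ := hJ
    have hQ0 : Q ≠ ⊥ := hQ.ne_zero
    have hQp : Q.IsPrime := Ideal.isPrime_of_prime hQ
    have hQn := two_le_norm Q hQp hQ0
    have hJn := norm_pos_of_ne J hJ0
    rw [map_mul] at hN
    have hJX : absNorm J ≤ X := (Nat.le_mul_of_pos_left _ (by omega)).trans hN
    have hQX : absNorm Q ≤ X := (Nat.le_mul_of_pos_right _ hJn).trans hN
    obtain ⟨v, R, hR, hnd⟩ := split_pow Q hQp J hJ0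
    have hnot : ¬ Q ^ (v + 1) ∣ J := by
      intro h
      rw [hR, pow_succ] at h
      exact hnd ((mul_dvd_mul_iff_left (pow_ne_zero v hQ.ne_zero)).mp h)
    have hdv : Q ^ (v + 1) ∣ Q * J := by
      rw [hR, pow_succ']
      exact mul_dvd_mul_left Q (dvd_mul_right _ _)
    have hvL : v + 1 ≤ L := by
      have h1 : absNorm (Q ^ (v + 1)) ≤ absNorm (Q * J) :=
        norm_le_of_dvd (mul_ne_zero hQ.ne_zero hJ) hdv
      rw [map_pow, map_mul] at h1
      have h2 : 2 ^ (v + 1) < 2 ^ L :=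
        lt_of_le_of_lt ((Nat.pow_le_pow_left hQn _).trans (h1.trans hN)) hL
      exact ((Nat.pow_lt_pow_iff_right one_lt_two).mp h2).le
    have hsub : insert (Q, v + 1) (Tf X L J) ⊆ Tf X L (Q * J) := by
      intro t ht
      rw [Finset.mem_insert] at ht
      unfold Tf
      rw [Finset.mem_filter, Finset.mem_product, mem_Px, Finset.mem_Icc]
      rcases ht with rfl | ht
      · exact ⟨⟨⟨hQp, hQ0, hQX⟩, by omega, hvL⟩, hdv⟩
      · unfold Tf at ht
        rw [Finset.mem_filter, Finset.mem_product, mem_Px, Finset.mem_Icc] at ht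
        exact ⟨ht.1, Dvd.dvd.mul_left ht.2 _⟩
    have hnotin : (Q, v + 1) ∉ Tf X L J := by
      intro h
      unfold Tf at h
      rw [Finset.mem_filter] at h
      exact hnot h.2
    have h3 := ih hJ0 hJX
    have h4 : Real.log (absNorm (Q * J) : ℝ) = Real.log (absNorm Q : ℝ) +
        Real.log (absNorm J : ℝ) := by
      rw [map_mul, Nat.cast_mul, Real.log_mul]
      · exact_mod_cast (by omega : absNorm Q ≠ 0)
      · exact_mod_cast (by omega : absNorm J ≠ 0)
    calc Real.log (absNorm (Q * J) : ℝ) ≤ Real.log (absNorm Q : ℝ) +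
          ∑ t ∈ Tf X L J, Real.log (absNorm t.1 : ℝ) := by rw [h4]; linarith
      _ = ∑ t ∈ insert (Q, v + 1) (Tf X L J), Real.log (absNorm t.1 : ℝ) := by
          rw [Finset.sum_insert hnotin]
      _ ≤ _ := Finset.sum_le_sum_of_subset_of_nonneg hsub fun t _ _ => log_norm_nonneg t.1

/-- multiples of `B` among the ideals of norm at most `X` -/
theorem card_mult_le (X : ℕ) (B : Ideal (𝓞 K)) (hB : B ≠ ⊥) :
    open Classical in ((Sx K X).filter fun I => B ∣ I).card ≤
      ((Sx K X).filter fun J => absNorm B * absNorm J ≤ X).card := by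
  classical
  have hex : ∀ I : Ideal (𝓞 K), ∃ J, B ∣ I → I = B * J := by
    intro I
    by_cases h : B ∣ I
    · obtain ⟨J, hJ⟩ := h
      exact ⟨J, fun _ => hJ⟩
    · exact ⟨⊥, fun h' => absurd h' h⟩
  choose q hq using hex
  apply Finset.card_le_card_of_injOn q
  · intro I hI
    rw [Finset.mem_coe, Finset.mem_filter, mem_Sx] at hI
    rw [Finset.mem_coe, Finset.mem_filter, mem_Sx]
    obtain ⟨⟨h1, h2⟩, h3⟩ := hI
    have h4 := hq I h3
    have hB1 := norm_pos_of_ne B hB
    have h5 : absNorm I = absNorm B * absNorm (q I) := by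
      conv_lhs => rw [h4]
      rw [map_mul]
    refine ⟨⟨?_, ?_⟩, ?_⟩
    · intro h0
      apply h1
      rw [h4, h0]
      exact Ideal.mul_bot _
    · exact (Nat.le_mul_of_pos_left _ hB1).trans (h5 ▸ h2)
    · rw [← h5]; exact h2
  · intro I hI J hJ h
    rw [Finset.mem_coe, Finset.mem_filter] at hI hJ
    rw [hq I hI.2, hq J hJ.2, h]

theorem powers_le (P : Ideal (𝓞 K)) (hP : P.IsPrime) (h0 : P ≠ ⊥) (L z : ℕ) (hz : 1 ≤ z) :
    ((((Finset.Icc 1 L).filter fun j => absNorm P ^ j ≤ z).card : ℕ) : ℝ) *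
      Real.log (absNorm P : ℝ) ≤ Real.log z := by
  have hN := two_le_norm P hP h0
  have h1 : ((Finset.Icc 1 L).filter fun j => absNorm P ^ j ≤ z).card ≤ Nat.log (absNorm P) z := by
    have hsub : ((Finset.Icc 1 L).filter fun j => absNorm P ^ j ≤ z) ⊆
        Finset.Icc 1 (Nat.log (absNorm P) z) := by
      intro j hj
      rw [Finset.mem_filter, Finset.mem_Icc] at hj
      rw [Finset.mem_Icc]
      exact ⟨hj.1.1, Nat.le_log_of_pow_le (by omega) hj.2⟩
    calc _ ≤ (Finset.Icc 1 (Nat.log (absNorm P) z)).card := Finset.card_le_card hsub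
      _ = _ := by simp
  have h2 : absNorm P ^ Nat.log (absNorm P) z ≤ z := Nat.pow_log_le_self _ (by omega)
  calc ((((Finset.Icc 1 L).filter fun j => absNorm P ^ j ≤ z).card : ℕ) : ℝ) *
        Real.log (absNorm P : ℝ) ≤ (Nat.log (absNorm P) z : ℝ) * Real.log (absNorm P : ℝ) :=
        mul_le_mul_of_nonneg_right (by exact_mod_cast h1) (log_norm_nonneg P)
    _ = Real.log ((absNorm P : ℝ) ^ Nat.log (absNorm P) z) := by rw [Real.log_pow]
    _ ≤ Real.log z := by
      apply Real.log_le_log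
      · have : (0 : ℝ) < absNorm P := by exact_mod_cast (by omega : 0 < absNorm P)
        positivity
      · exact_mod_cast h2

theorem inner_le (X L z : ℕ) (hz : 1 ≤ z) :
    ∑ t ∈ (Px K X ×ˢ Finset.Icc 1 L).filter (fun t => absNorm t.1 ^ t.2 ≤ z),
      Real.log (absNorm t.1 : ℝ) ≤ (Px K z).card * Real.log z := by
  classical
  have hlz : 0 ≤ Real.log z := Real.log_nonneg (by exact_mod_cast hz)
  rw [Finset.sum_filter, Finset.sum_product]
  have h1 : ∀ P ∈ Px K X, (∑ j ∈ Finset.Icc 1 L, if absNorm P ^ j ≤ z then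
      Real.log (absNorm P : ℝ) else 0) ≤ if P ∈ Px K z then Real.log z else 0 := by
    intro P hP
    rw [mem_Px] at hP
    split_ifs with h
    · rw [← Finset.sum_filter, Finset.sum_const, nsmul_eq_mul]
      exact powers_le P hP.1 hP.2.1 L z hz
    · apply le_of_eq
      apply Finset.sum_eq_zero
      intro j hj
      rw [Finset.mem_Icc] at hj
      rw [if_neg]
      intro hle
      apply h
      rw [mem_Px]
      exact ⟨hP.1, hP.2.1, (Nat.le_self_pow (by omega) _).trans hle⟩
  refine (Finset.sum_le_sum h1).trans ?_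
  rw [← Finset.sum_filter, Finset.sum_const, nsmul_eq_mul]
  apply mul_le_mul_of_nonneg_right _ hlz
  have : ((Px K X).filter fun P => P ∈ Px K z) ⊆ Px K z := by
    intro P hP
    exact (Finset.mem_filter.mp hP).2
  exact_mod_cast Finset.card_le_card this

theorem sum_log_le (X : ℕ) : ∑ I ∈ Sx K X, Real.log (absNorm I : ℝ) ≤
    ∑ J ∈ Sx K X, ((Px K (X / absNorm J)).card : ℝ) * Real.log ((X / absNorm J : ℕ) : ℝ) := by
  classical
  obtain ⟨L, hL⟩ : ∃ L : ℕ, X < 2 ^ L := ⟨X, Nat.lt_two_pow_self⟩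
  calc ∑ I ∈ Sx K X, Real.log (absNorm I : ℝ)
      ≤ ∑ I ∈ Sx K X, ∑ t ∈ Tf X L I, Real.log (absNorm t.1 : ℝ) := by
        refine Finset.sum_le_sum fun I hI => ?_
        rw [mem_Sx] at hI
        exact log_norm_le X L hL I hI.1 hI.2
    _ = ∑ t ∈ Px K X ×ˢ Finset.Icc 1 L, ∑ I ∈ Sx K X,
          (if t.1 ^ t.2 ∣ I then Real.log (absNorm t.1 : ℝ) else 0) := by
        rw [Finset.sum_comm]
        refine Finset.sum_congr rfl fun I _ => ?_
        unfold Tf
        rw [Finset.sum_filter]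
    _ ≤ ∑ t ∈ Px K X ×ˢ Finset.Icc 1 L, ∑ J ∈ Sx K X,
          (if absNorm t.1 ^ t.2 * absNorm J ≤ X then Real.log (absNorm t.1 : ℝ) else 0) := by
        refine Finset.sum_le_sum fun t ht => ?_
        rw [Finset.mem_product, mem_Px] at ht
        rw [← Finset.sum_filter, ← Finset.sum_filter, Finset.sum_const, Finset.sum_const,
          nsmul_eq_mul, nsmul_eq_mul]
        apply mul_le_mul_of_nonneg_right _ (log_norm_nonneg t.1)
        have hB : t.1 ^ t.2 ≠ ⊥ := pow_ne_zero _ ht.1.2.1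
        have := card_mult_le X (t.1 ^ t.2) hB
        rw [map_pow] at this
        exact_mod_cast this
    _ = ∑ J ∈ Sx K X, ∑ t ∈ (Px K X ×ˢ Finset.Icc 1 L).filter
          (fun t => absNorm t.1 ^ t.2 ≤ X / absNorm J), Real.log (absNorm t.1 : ℝ) := by
        rw [Finset.sum_comm]
        refine Finset.sum_congr rfl fun J hJ => ?_
        rw [mem_Sx] at hJ
        rw [Finset.sum_filter]
        refine Finset.sum_congr rfl fun t _ => ?_
        have hiff : absNorm t.1 ^ t.2 * absNorm J ≤ X ↔ absNorm t.1 ^ t.2 ≤ X / absNorm J :=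
          (Nat.le_div_iff_mul_le (norm_pos_of_ne J hJ.1)).symm
        by_cases h : absNorm t.1 ^ t.2 * absNorm J ≤ X
        · rw [if_pos h, if_pos (hiff.mp h)]
        · rw [if_neg h, if_neg fun h' => h (hiff.mpr h')]
    _ ≤ _ := by
        refine Finset.sum_le_sum fun J hJ => ?_
        rw [mem_Sx] at hJ
        exact inner_le X L _ (Nat.div_pos hJ.2 (norm_pos_of_ne J hJ.1))

end Pool.Agent.Work.MP_e0c7e8_nt
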