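import Pool.Agent.Work.MP_e0c7e8_nt.Count
import Pool.Agent.Work.MP_e0c7e8_nt.Mert

/-!
# Numerical bounds for primes
-/

set_option autoImplicit false

namespace Pool.Agent.Work.MP_e0c7e8_nt

open Real

theorem card_prs (z : ℕ) : (prs z).card = Nat.primeCounting z := by
  unfold prs Nat.primeCounting Nat.primeCounting'
  rw [Nat.count_eq_card_filter_range]
  congr 1
  ext p
  rw [Finset.mem_filter, Finset.mem_filter, Finset.mem_Icc, Finset.mem_range]
  constructor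
  · rintro ⟨⟨h1, h2⟩, h3⟩
    exact ⟨by omega, h3⟩
  · rintro ⟨h1, h3⟩
    exact ⟨⟨h3.one_lt.le, by omega⟩, h3⟩

/-- Chebyshev -/
theorem cheb : ∃ C : ℝ, 0 ≤ C ∧ ∀ z : ℕ, 1 ≤ z → ((prs z).card : ℝ) * log z ≤ C * z := by
  refine ⟨2 * log 4 + 2, ?_, ?_⟩
  · have : 0 < log 4 := log_pos (by norm_num)
    linarith
  · intro z hz
    rcases Nat.lt_or_ge 1 z with h | h
    · have hz1 : (1 : ℝ) < z := by exact_mod_cast h
      have hz0 : (0 : ℝ) < z := by linarith
      have h1 := Chebyshev.pi_le_log4_mul_div hz1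
      rw [Nat.floor_natCast] at h1
      rw [card_prs]
      have hs : 0 < √(z : ℝ) := Real.sqrt_pos.mpr hz0
      have hl : 0 < log z := log_pos hz1
      have hls : log √(z : ℝ) = log z / 2 := by rw [Real.log_sqrt hz0.le]
      rw [hls] at h1
      have h2 : (Nat.primeCounting z : ℝ) * log z ≤
          (log 4 * z / (log z / 2) + √(z : ℝ)) * log z :=
        mul_le_mul_of_nonneg_right h1 hl.le
      have h3 : (log 4 * z / (log z / 2) + √(z : ℝ)) * log z =
          2 * log 4 * z + √(z : ℝ) * log z := by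
        field_simp
      have h4 : log z ≤ 2 * √(z : ℝ) := by
        have h5 : log √(z : ℝ) ≤ √(z : ℝ) - 1 := Real.log_le_sub_one_of_pos hs
        rw [hls] at h5
        linarith
      have h6 : √(z : ℝ) * log z ≤ 2 * z := by
        calc √(z : ℝ) * log z ≤ √(z : ℝ) * (2 * √(z : ℝ)) := mul_le_mul_of_nonneg_left h4 hs.le
          _ = 2 * (√(z : ℝ) * √(z : ℝ)) := by ring
          _ = 2 * z := by rw [Real.mul_self_sqrt hz0.le]
      linarith
    · have h1 : z = 1 := by omega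
      rw [h1]
      have : 0 < log 4 := log_pos (by norm_num)
      simp
      linarith

/-- Mertens -/
theorem mertens : ∃ C : ℝ, 0 ≤ C ∧ ∀ X Y : ℕ, 2 ≤ Y → Y ≤ X →
    ∑ p ∈ (prs X).filter (fun p => Y < p), (1 : ℝ) / p ≤ (log X + C) / log Y := by
  obtain ⟨C, hC⟩ := Mert.mertens1.2
  have hC0 : 0 ≤ C := (abs_nonneg _).trans (hC 1 le_rfl)
  refine ⟨2 * C, by linarith, ?_⟩
  intro X Y hY hYX
  have hY1 : (1 : ℝ) < Y := by exact_mod_cast (by omega : 1 < Y)
  have hlY : 0 < log Y := log_pos hY1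
  have hX := hC X (by exact_mod_cast (by omega : 1 ≤ X))
  have hY' := hC Y hY1.le
  rw [Nat.floor_natCast] at hX hY'
  have hX2 := (abs_le.mp hX).2
  have hY2 := (abs_le.mp hY').1
  rw [le_div_iff₀ hlY, Finset.sum_mul]
  have h1 : ∑ p ∈ (prs X).filter (fun p => Y < p), (1 : ℝ) / p * log Y ≤
      ∑ p ∈ (prs X).filter (fun p => Y < p), log p / p := by
    refine Finset.sum_le_sum fun p hp => ?_
    rw [Finset.mem_filter] at hp
    have hp0 : (0 : ℝ) < p := by exact_mod_cast (by omega : 0 < p)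
    have h3 : log Y ≤ log p := log_le_log (by linarith) (by exact_mod_cast hp.2.le)
    rw [div_mul_eq_mul_div, one_mul]
    exact div_le_div_of_nonneg_right h3 hp0.le
  have h2 : ∑ p ∈ prs X, log p / p = ∑ p ∈ prs Y, log p / p +
      ∑ p ∈ (prs X).filter (fun p => Y < p), log p / p := by
    rw [← Finset.sum_filter_add_sum_filter_not (prs X) (fun p => Y < p), add_comm]
    congr 1
    apply Finset.sum_congr _ fun _ _ => rfl
    ext p
    unfold prs
    rw [Finset.mem_filter, Finset.mem_filter, Finset.mem_filter, Finset.mem_Icc, Finset.mem_Icc]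
    constructor
    · rintro ⟨⟨⟨a, b⟩, c⟩, d⟩
      exact ⟨⟨a, by omega⟩, c⟩
    · rintro ⟨⟨a, b⟩, c⟩
      exact ⟨⟨⟨a, by omega⟩, c⟩, by omega⟩
  have h3 : ∑ p ∈ prs X, log (p : ℝ) / p ≤ log X + C := by
    have : ∑ p ∈ prs X, log (p : ℝ) / p - log X ≤ C := hX2
    linarith
  have h4 : log Y - C ≤ ∑ p ∈ prs Y, log (p : ℝ) / p := by
    have : -C ≤ ∑ p ∈ prs Y, log (p : ℝ) / p - log Y := hY2
    linarith
  linarith

theorem odd_prod (T : Finset ℕ) : (∀ p ∈ T, 3 ≤ p ∧ Odd p) →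
    ∏ p ∈ T, ((1 - 1 / (p : ℝ))⁻¹) ^ 2 ≤ 2 * T.card + 1 := by
  induction T using Finset.induction_on_max with
  | empty => intro _; simp
  | insert a s hs ih =>
    intro hT
    have hna : a ∉ s := fun h => lt_irrefl _ (hs a h)
    have hs' : ∀ p ∈ s, 3 ≤ p ∧ Odd p := fun p hp => hT p (Finset.mem_insert_of_mem hp)
    obtain ⟨ha3, haodd⟩ := hT a (Finset.mem_insert_self a s)
    have hcard : 2 * s.card + 3 ≤ a := by
      have hsub : s ⊆ (Finset.range ((a - 3) / 2)).image fun i => 2 * i + 3 := by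
        intro p hp
        rw [Finset.mem_image]
        obtain ⟨h1, c, hc⟩ := hs' p hp
        obtain ⟨e, he⟩ := haodd
        have h2 := hs p hp
        refine ⟨c - 1, ?_, by omega⟩
        rw [Finset.mem_range]
        omega
      have h1 := (Finset.card_le_card hsub).trans Finset.card_image_le
      rw [Finset.card_range] at h1
      omega
    rw [Finset.prod_insert hna, Finset.card_insert_of_notMem hna]
    have ih' := ih hs'
    have hn : (0 : ℝ) ≤ s.card := Nat.cast_nonneg _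
    have haR : 2 * (s.card : ℝ) + 3 ≤ a := by exact_mod_cast hcard
    have h1 : (1 - 1 / (a : ℝ))⁻¹ ≤ (1 - 1 / (2 * (s.card : ℝ) + 3))⁻¹ :=
      (inv_mono_factor _ _ (by linarith) haR).2
    have h2 : (1 - 1 / (2 * (s.card : ℝ) + 3))⁻¹ =
        (2 * (s.card : ℝ) + 3) / (2 * (s.card : ℝ) + 2) := by
      have h9 : 1 - 1 / (2 * (s.card : ℝ) + 3) =
          (2 * (s.card : ℝ) + 2) / (2 * (s.card : ℝ) + 3) := by
        field_simp
        ring
      rw [h9, inv_div]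
    have h3 : ((1 - 1 / (a : ℝ))⁻¹) ^ 2 ≤ (2 * (s.card : ℝ) + 3) / (2 * (s.card : ℝ) + 1) := by
      have h4 : 0 ≤ (1 - 1 / (a : ℝ))⁻¹ := by
        have := (inv_mono_factor (a : ℝ) (a : ℝ) (by linarith) le_rfl).1
        linarith
      calc ((1 - 1 / (a : ℝ))⁻¹) ^ 2 ≤ ((2 * (s.card : ℝ) + 3) / (2 * (s.card : ℝ) + 2)) ^ 2 := by
            rw [← h2]
            exact pow_le_pow_left₀ h4 h1 2
        _ ≤ (2 * (s.card : ℝ) + 3) / (2 * (s.card : ℝ) + 1) := by
            rw [div_pow, div_le_div_iff₀ (by positivity) (by positivity)]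
            nlinarith
    have h5 : 0 ≤ ∏ p ∈ s, ((1 - 1 / (p : ℝ))⁻¹) ^ 2 := Finset.prod_nonneg fun p _ => by positivity
    calc ((1 - 1 / (a : ℝ))⁻¹) ^ 2 * ∏ p ∈ s, ((1 - 1 / (p : ℝ))⁻¹) ^ 2 ≤
        (2 * (s.card : ℝ) + 3) / (2 * (s.card : ℝ) + 1) * (2 * s.card + 1) :=
          mul_le_mul h3 ih' h5 (by positivity)
      _ = 2 * ((s.card + 1 : ℕ) : ℝ) + 1 := by
          push_cast
          field_simp
          ring

theorem prime_prod (T : Finset ℕ) (hT : ∀ p ∈ T, p.Prime) :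
    ∏ p ∈ T, ((1 - 1 / (p : ℝ))⁻¹) ^ 2 ≤ 4 * (2 * T.card + 1) := by
  have h1 := Finset.prod_filter_mul_prod_filter_not T (fun p => p = 2)
    (fun p => ((1 - 1 / (p : ℝ))⁻¹) ^ 2)
  rw [← h1]
  have h2 : ∏ p ∈ T.filter (fun p => p = 2), ((1 - 1 / (p : ℝ))⁻¹) ^ 2 ≤ 4 := by
    by_cases h : 2 ∈ T
    · rw [Finset.filter_eq', if_pos h, Finset.prod_singleton]
      norm_num
    · rw [Finset.filter_eq', if_neg h, Finset.prod_empty]
      norm_num
  have h3 : ∏ p ∈ T.filter (fun p => ¬ p = 2), ((1 - 1 / (p : ℝ))⁻¹) ^ 2 ≤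
      2 * (T.filter (fun p => ¬ p = 2)).card + 1 := by
    apply odd_prod
    intro p hp
    rw [Finset.mem_filter] at hp
    have hpp := hT p hp.1
    have h4 := hpp.two_le
    exact ⟨by omega, hpp.odd_of_ne_two hp.2⟩
  have h5 : ((T.filter (fun p => ¬ p = 2)).card : ℝ) ≤ T.card := by
    exact_mod_cast Finset.card_filter_le _ _
  have h6 : 0 ≤ ∏ p ∈ T.filter (fun p => ¬ p = 2), ((1 - 1 / (p : ℝ))⁻¹) ^ 2 :=
    Finset.prod_nonneg fun p _ => by positivity
  calc _ ≤ 4 * (2 * ((T.filter (fun p => ¬ p = 2)).card : ℝ) + 1) :=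
        mul_le_mul h2 h3 h6 (by norm_num)
    _ ≤ _ := by linarith

theorem sq_prod_Icc (N : ℕ) : ∏ n ∈ Finset.Icc 2 (N + 1), (1 - 1 / (n : ℝ) ^ 2)⁻¹ =
    2 * ((N : ℝ) + 1) / (N + 2) := by
  induction N with
  | zero => norm_num
  | succ N ih =>
    rw [Finset.prod_Icc_succ_top (by omega), ih]
    push_cast
    rw [← one_div]
    have h1 : (1 : ℝ) - 1 / ((N : ℝ) + 1 + 1) ^ 2 =
        ((N : ℝ) + 1) * (N + 3) / ((N : ℝ) + 1 + 1) ^ 2 := by
      field_simp
      ring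
    rw [h1]
    field_simp
    ring

theorem sq_prod (S : Finset ℕ) (hS : ∀ p ∈ S, 2 ≤ p) :
    ∏ p ∈ S, (1 - 1 / (p : ℝ) ^ 2)⁻¹ ≤ 2 := by
  obtain ⟨N, hN⟩ : ∃ N : ℕ, ∀ p ∈ S, p ≤ N + 1 := by
    refine ⟨S.sup id, fun p hp => ?_⟩
    have := Finset.le_sup (f := id) hp
    simp only [id] at this
    omega
  have hsub : S ⊆ Finset.Icc 2 (N + 1) := by
    intro p hp
    rw [Finset.mem_Icc]
    exact ⟨hS p hp, hN p hp⟩
  have hf : ∀ n ∈ Finset.Icc 2 (N + 1), 1 ≤ (1 - 1 / (n : ℝ) ^ 2)⁻¹ := by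
    intro n hn
    rw [Finset.mem_Icc] at hn
    have h2 : (2 : ℝ) ≤ n := by exact_mod_cast hn.1
    exact (inv_mono_factor _ _ (by nlinarith : (1 : ℝ) < (n : ℝ) ^ 2) le_rfl).1
  calc ∏ p ∈ S, (1 - 1 / (p : ℝ) ^ 2)⁻¹ ≤ ∏ n ∈ Finset.Icc 2 (N + 1), (1 - 1 / (n : ℝ) ^ 2)⁻¹ := by
        rw [← Finset.prod_sdiff hsub]
        apply le_mul_of_one_le_left
        · apply Finset.prod_nonneg
          intro p hp
          have := hf p (hsub hp)
          linarith
        · calc (1 : ℝ) = ∏ _n ∈ Finset.Icc 2 (N + 1) \ S, (1 : ℝ) := by simp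
            _ ≤ _ := Finset.prod_le_prod (fun _ _ => zero_le_one)
              fun n hn => hf n (Finset.sdiff_subset hn)
    _ = 2 * ((N : ℝ) + 1) / (N + 2) := sq_prod_Icc N
    _ ≤ 2 := by
        rw [div_le_iff₀ (by positivity)]
        linarith

theorem factor_exp (p : ℕ) (hp : 2 ≤ p) : ((1 - 1 / (p : ℝ))⁻¹) ^ 2 ≤ exp (4 * (1 / p)) := by
  have hp2 : (2 : ℝ) ≤ p := by exact_mod_cast hp
  have hu : 1 / (p : ℝ) ≤ 1 / 2 := one_div_le_one_div_of_le (by norm_num) hp2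
  have hu0 : 0 < 1 / (p : ℝ) := by positivity
  set u := 1 / (p : ℝ) with hu'
  have h1 : 0 < 1 - u := by linarith
  have h2 : (1 - u)⁻¹ ≤ exp (2 * u) := by
    have h3 := Real.one_sub_inv_le_log_of_pos h1
    have h4 : -(2 * u) ≤ 1 - (1 - u)⁻¹ := by
      rw [← one_div]
      have : 1 - 1 / (1 - u) = -(u / (1 - u)) := by
        field_simp
        ring
      rw [this, neg_le_neg_iff, div_le_iff₀ h1]
      nlinarith
    have h5 : exp (-(2 * u)) ≤ 1 - u := by
      rw [← Real.le_log_iff_exp_le h1]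
      linarith
    rw [exp_neg] at h5
    exact inv_le_of_inv_le₀ (exp_pos _) h5
  calc ((1 - u)⁻¹) ^ 2 ≤ (exp (2 * u)) ^ 2 := pow_le_pow_left₀ (by positivity) h2 2
    _ = exp (4 * u) := by
      rw [← Real.exp_nat_mul]
      congr 1
      push_cast
      ring

end Pool.Agent.Work.MP_e0c7e8_nt
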